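import Mathlib

namespace Pool.Agent.Results.MP_c9c291_lc.Reg

open Computability

/-- A family of languages: it says, for each alphabet, which languages belong to it
(only finite alphabets are ever used below). -/
abbrev Family : Type 1 := (X : Type) → Language X → Prop

/-- An agsm from `X` to `Y`. -/
structure Agsm (X Y : Type) where
  Q : Type
  fin : Finite Q
  q0 : Q
  F : Set Q
  t : Q → X → Q
  h : Q → X → List Y

/-- The output map extended to words. -/
def Agsm.out {X Y : Type} (g : Agsm X Y) : g.Q → List X → List Y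
  | _, [] => []
  | q, a :: w => g.h q a ++ g.out (g.t q a) w

/-- The inverse image of `M` under the agsm `g`. -/
def Agsm.inv {X Y : Type} (g : Agsm X Y) (M : Language Y) : Language X :=
  {w | w.foldl g.t g.q0 ∈ g.F ∧ g.out g.q0 w ∈ M}

/-- The inverse image of `M` under the homomorphism with letter images `φ`. -/
def homInv {X Y : Type} (φ : X → List Y) (M : Language Y) : Language X :=
  {w | w.flatMap φ ∈ M}

/-- Languages obtained from `L0` by finitely many inverse agsm mappings. -/
inductive GenA {X0 : Type} (L0 : Language X0) : (X : Type) → Language X → Prop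
  | base : GenA L0 X0 L0
  | inv (X Y : Type) (hX : Finite X) (g : Agsm X Y) (M : Language Y) :
      GenA L0 Y M → GenA L0 X (g.inv M)

/-- Languages obtained from `L0` by finitely many operations of `C`. -/
inductive GenC {X0 : Type} (L0 : Language X0) : (X : Type) → Language X → Prop
  | base : GenC L0 X0 L0
  | hom (X Y : Type) (hX : Finite X) (φ : X → List Y) (M : Language Y) :
      GenC L0 Y M → GenC L0 X (homInv φ M)
  | inter (X : Type) (M R : Language X) :
      R.IsRegular → GenC L0 X M → GenC L0 X (M ⊓ R)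

/-- Closed under inverse agsm mappings, with a generator. -/
def AgsmPrincipal (𝓛 : Family) : Prop :=
  (∀ (X Y : Type), Finite X → Finite Y → ∀ (g : Agsm X Y) (M : Language Y),
      𝓛 Y M → 𝓛 X (g.inv M)) ∧
  ∃ (X0 : Type) (L0 : Language X0), Finite X0 ∧ 𝓛 X0 L0 ∧
    ∀ (X : Type), Finite X → ∀ L : Language X, 𝓛 X L → GenA L0 X L

/-- Closed under inverse homomorphism and intersection with regular sets, with a generator. -/
def CPrincipal (𝓛 : Family) : Prop :=
  (∀ (X Y : Type), Finite X → Finite Y → ∀ (φ : X → List Y) (M : Language Y),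
      𝓛 Y M → 𝓛 X (homInv φ M)) ∧
  (∀ (X : Type), Finite X → ∀ M R : Language X, R.IsRegular → 𝓛 X M → 𝓛 X (M ⊓ R)) ∧
  ∃ (X0 : Type) (L0 : Language X0), Finite X0 ∧ 𝓛 X0 L0 ∧
    ∀ (X : Type), Finite X → ∀ L : Language X, 𝓛 X L → GenC L0 X L

/-- The alphabet `X` with three new letters. -/
inductive Ext (X : Type) : Type
  | x (a : X) : Ext X
  | y : Ext X
  | yb : Ext X
  | z : Ext X

/-- The nonterminals of the grammar for `A`. -/
inductive NT : Type
  | v0 | v1 | v2 | v3

/-- The terminal words derivable from each nonterminal, one constructor per rule. -/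
inductive Der (X : Type) : NT → List (Ext X) → Prop
  | v0_v1 (w) : Der X .v1 w → Der X .v0 w
  | v0_eps : Der X .v0 []
  | v1_y (w) : Der X .v2 w → Der X .v1 (Ext.y :: (w ++ [Ext.yb]))
  | v1_v3 (w) : Der X .v3 w → Der X .v1 (w ++ [Ext.z])
  | v1_z : Der X .v1 [Ext.z]
  | v2_x (w) (a : X) : Der X .v2 w → Der X .v2 (w ++ [Ext.x a])
  | v2_y (w) : Der X .v2 w → Der X .v2 (w ++ [Ext.y])
  | v2_v1 (w) : Der X .v1 w → Der X .v2 w
  | v3_x (w) (a : X) : Der X .v3 w → Der X .v3 (w ++ [Ext.x a])
  | v3_y (w) : Der X .v3 w → Der X .v3 (w ++ [Ext.y])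
  | v3_yb (w) : Der X .v3 w → Der X .v3 (w ++ [Ext.yb])
  | v3_base : Der X .v3 [Ext.yb]

/-- The language with the single word `w`. -/
def one {X : Type} (w : List X) : Language X := {u | u = w}

/-- The language `A`. -/
def A (X : Type) : Language (Ext X) := {w | Der X .v0 w}

/-- The letters of `X`, as one-letter words. -/
def lettersX (X : Type) : Language (Ext X) := {w | ∃ a : X, w = [Ext.x a]}

/-- The language `B`. -/
def B (X : Type) : Language (Ext X) :=
  one [Ext.y] + (one [Ext.yb] * (lettersX X)∗ * (one [Ext.y] * (one [Ext.y])∗))∗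

/-- The language `f1 A f2 A ... A fn`. -/
def inter {X : Type} : List X → Language (Ext X)
  | [] => 1
  | [a] => one [Ext.x a]
  | a :: b :: r => one [Ext.x a] * A X * inter (b :: r)

/-- The transformation `T`. -/
def T {X : Type} (L : Language X) : Language (Ext X) :=
  {w | ∃ f ∈ L, w ∈ one [Ext.z, Ext.yb] * inter f * B X}

/-- Closure under `T`. -/
def ClosedT (𝓛 : Family) : Prop :=
  ∀ (X : Type), Finite X → ∀ M : Language X, 𝓛 X M → 𝓛 (Ext X) (T M)

/-- The family of regular languages. -/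
def Reg : Family := fun _ L => L.IsRegular

theorem reg_inv {X Y : Type} (g : Agsm X Y) (M : Language Y) (hM : M.IsRegular) :
    (g.inv M).IsRegular := by
  obtain ⟨σ, hσ, D, rfl⟩ := hM
  haveI := g.fin
  haveI : Fintype g.Q := Fintype.ofFinite _
  refine ⟨g.Q × σ, inferInstance,
    ⟨fun p a => (g.t p.1 a, D.evalFrom p.2 (g.h p.1 a)), (g.q0, D.start),
      {p | p.1 ∈ g.F ∧ p.2 ∈ D.accept}⟩, ?_⟩
  have key : ∀ (w : List X) (q : g.Q) (s : σ),
      List.foldl (fun (p : g.Q × σ) a => (g.t p.1 a, D.evalFrom p.2 (g.h p.1 a))) (q, s) w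
        = (w.foldl g.t q, D.evalFrom s (g.out q w)) := by
    intro w
    induction w with
    | nil => intro q s; simp [Agsm.out, DFA.evalFrom]
    | cons a w ih =>
      intro q s
      rw [List.foldl_cons, ih]
      simp [Agsm.out, DFA.evalFrom, List.foldl_append]
  ext w
  have := key w g.q0 D.start
  simp only [DFA.mem_accepts, DFA.eval, Agsm.inv]
  change List.foldl _ _ w ∈ _ ↔ _
  rw [this]
  rfl

theorem reg_hom {X Y : Type} (φ : X → List Y) (M : Language Y) (hM : M.IsRegular) :
    (homInv φ M).IsRegular := by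
  have h := reg_inv (⟨Unit, inferInstance, (), Set.univ, fun _ _ => (), fun _ a => φ a⟩ : Agsm X Y)
    M hM
  have key : ∀ w : List X, Agsm.out
      (⟨Unit, inferInstance, (), Set.univ, fun _ _ => (), fun _ a => φ a⟩ : Agsm X Y) () w
        = w.flatMap φ := by
    intro w
    induction w with
    | nil => rfl
    | cons a w ih => rw [List.flatMap_cons, ← ih]; rfl
  convert h using 1
  ext w
  change w.flatMap φ ∈ M ↔ (_ ∧ _)
  rw [key]
  simp

theorem reg_top : (⊤ : Language Unit).IsRegular :=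
  ⟨Unit, inferInstance, ⟨fun _ _ => (), (), Set.univ⟩, by
    ext w
    simp only [DFA.mem_accepts]
    exact ⟨fun _ => trivial, fun _ => trivial⟩⟩

/-- Number of leading letters `y` before a letter `z`. -/
def lead {X : Type} : List (Ext X) → Option ℕ
  | [] => none
  | Ext.y :: w => (lead w).map (· + 1)
  | Ext.z :: _ => some 0
  | Ext.yb :: _ => none
  | Ext.x _ :: _ => none

/-- Number of letters `yb`. -/
def cnt {X : Type} : List (Ext X) → ℕ
  | [] => 0
  | Ext.yb :: w => cnt w + 1
  | Ext.y :: w => cnt w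
  | Ext.z :: w => cnt w
  | Ext.x _ :: w => cnt w

theorem cnt_append {X : Type} (u v : List (Ext X)) : cnt (u ++ v) = cnt u + cnt v := by
  induction u with
  | nil => simp [cnt]
  | cons c u ih => cases c <;> simp [cnt, ih] <;> omega

theorem lead_snoc {X : Type} (c : Ext X) (hc : c ≠ Ext.z) (w : List (Ext X)) :
    lead (w ++ [c]) = lead w := by
  induction w with
  | nil => cases c <;> simp_all [lead]
  | cons d w ih => cases d <;> simp [lead, ih]

theorem der_inv {X : Type} (v : NT) (w : List (Ext X)) (h : Der X v w) :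
    (v = .v3 → ∃ r, w = Ext.yb :: r) ∧ (v ≠ .v3 → ∀ m, lead w = some m → cnt w = m) := by
  induction h with
  | v0_v1 w _ ih => exact ⟨by simp, fun _ => ih.2 (by simp)⟩
  | v0_eps => exact ⟨by simp, fun _ m hm => by simp [lead] at hm⟩
  | v1_y w _ ih =>
    refine ⟨by simp, fun _ m hm => ?_⟩
    simp only [lead, lead_snoc Ext.yb (by simp) w, Option.map_eq_some_iff] at hm
    obtain ⟨k, hk, rfl⟩ := hm
    simp [cnt, cnt_append, ih.2 (by simp) k hk]
  | v1_v3 w _ ih =>
    obtain ⟨r, rfl⟩ := ih.1 rfl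
    exact ⟨by simp, fun _ m hm => by simp [lead] at hm⟩
  | v1_z => exact ⟨by simp, fun _ m hm => by simp [lead] at hm; simp [cnt, hm]⟩
  | v2_x w a _ ih =>
    refine ⟨by simp, fun _ m hm => ?_⟩
    rw [lead_snoc _ (by simp)] at hm
    simp [cnt, cnt_append, ih.2 (by simp) m hm]
  | v2_y w _ ih =>
    refine ⟨by simp, fun _ m hm => ?_⟩
    rw [lead_snoc _ (by simp)] at hm
    simp [cnt, cnt_append, ih.2 (by simp) m hm]
  | v2_v1 w _ ih => exact ⟨by simp, fun _ => ih.2 (by simp)⟩
  | v3_x w a _ ih =>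
    obtain ⟨r, rfl⟩ := ih.1 rfl
    exact ⟨fun _ => ⟨_, rfl⟩, by simp⟩
  | v3_y w _ ih =>
    obtain ⟨r, rfl⟩ := ih.1 rfl
    exact ⟨fun _ => ⟨_, rfl⟩, by simp⟩
  | v3_yb w _ ih =>
    obtain ⟨r, rfl⟩ := ih.1 rfl
    exact ⟨fun _ => ⟨_, rfl⟩, by simp⟩
  | v3_base => exact ⟨fun _ => ⟨_, rfl⟩, by simp⟩

/-- The word `y^m z yb^n`. -/
def wd (m n : ℕ) : List (Ext Unit) :=
  List.replicate m Ext.y ++ (Ext.z :: List.replicate n Ext.yb)

theorem wd_der (n : ℕ) : Der Unit .v1 (wd n n) := by
  induction n with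
  | zero => exact Der.v1_z
  | succ n ih =>
    have := Der.v1_y _ (Der.v2_v1 _ ih)
    convert this using 1
    simp only [wd]
    rw [List.replicate_succ, List.replicate_succ']
    simp

theorem lead_wd (m n : ℕ) : lead (wd m n) = some m := by
  induction m with
  | zero => simp [wd, lead]
  | succ m ih =>
    have : wd (m + 1) n = Ext.y :: wd m n := by simp [wd, List.replicate_succ]
    rw [this]; simp [lead, ih]

theorem cnt_wd (m n : ℕ) : cnt (wd m n) = n := by
  have h1 : ∀ k, cnt (List.replicate k (Ext.y : Ext Unit)) = 0 := by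
    intro k; induction k with
    | zero => rfl
    | succ k ih => simp [List.replicate_succ, cnt, ih]
  have h2 : ∀ k, cnt (List.replicate k (Ext.yb : Ext Unit)) = k := by
    intro k; induction k with
    | zero => rfl
    | succ k ih => simp [List.replicate_succ, cnt, ih]
  simp [wd, cnt_append, cnt, h1, h2]

theorem mem_T (m n : ℕ) :
    ([Ext.z, Ext.yb, Ext.x ()] ++ wd m n ++ [Ext.x (), Ext.y]) ∈ T (one [(), ()]) ↔ m = n := by
  constructor
  · rintro ⟨f, hf, hw⟩
    have hf' : f = [(), ()] := hf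
    subst hf'
    simp only [inter, Language.mem_mul] at hw
    obtain ⟨_, ⟨a, ha, _, ⟨_, ⟨b, hb, α, hα, rfl⟩, c, hc, rfl⟩, rfl⟩, β, -, h⟩ := hw
    have ha' : a = _ := ha
    have hb' : b = _ := hb
    have hc' : c = _ := hc
    subst ha' hb' hc'
    have h2 : α ++ (Ext.x () :: β) = wd m n ++ [Ext.x (), Ext.y] := by simpa using h
    have hx : (Ext.x () : Ext Unit) ∉ wd m n := by simp [wd]
    have h3 : α = wd m n := by
      rcases List.append_eq_append_iff.1 h2 with ⟨s, hs, hs2⟩ | ⟨s, hs, hs2⟩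
      · cases s with
        | nil => simpa using hs.symm
        | cons d s =>
          have hd : Ext.x () = d := by simpa using (List.cons.inj hs2).1
          exact absurd (by rw [hs, ← hd]; simp) hx
      · cases s with
        | nil => simpa using hs
        | cons d s =>
          have h4 := (List.cons.inj hs2).2
          have h5 : (Ext.x () : Ext Unit) ∈ [(Ext.y : Ext Unit)] := by
            rw [h4]; simp
          simp at h5
    subst h3
    have := (der_inv _ _ hα).2 (by simp) m (lead_wd m n)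
    rw [cnt_wd] at this
    exact this.symm
  · rintro rfl
    refine ⟨[(), ()], rfl, ?_⟩
    simp only [inter, Language.mem_mul]
    refine ⟨_, ⟨_, rfl, _, ⟨_, ⟨_, rfl, wd m m, Der.v0_v1 _ (wd_der m), rfl⟩, _, rfl, rfl⟩, rfl⟩,
      [Ext.y], Or.inl rfl, by simp⟩

theorem reg_one : (one [(), ()]).IsRegular := by
  refine ⟨Fin 4, inferInstance, ⟨fun s _ => if s = 3 then 3 else s + 1, 0, {2}⟩, ?_⟩
  have h3 : ∀ w : List Unit,
      List.foldl (fun (s : Fin 4) (_ : Unit) => if s = 3 then 3 else s + 1) 3 w = 3 := by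
    intro w; induction w with
    | nil => rfl
    | cons a w ih => simpa using ih
  ext w
  change List.foldl _ _ w = 2 ↔ w = [(), ()]
  match w with
  | [] => simp
  | [_] => simp
  | [_, _] => simp
  | _ :: _ :: _ :: w =>
    have e : List.foldl (fun (s : Fin 4) (_ : Unit) => if s = 3 then 3 else s + 1) 0
        (() :: () :: () :: w) = 3 := h3 w
    constructor
    · intro h; rw [e] at h; exact absurd h (by decide)
    · intro h; simp at h

theorem not_reg : ¬ (T (one [(), ()])).IsRegular := by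
  rintro ⟨σ, hσ, D, hD⟩
  obtain ⟨m, n, hmn, h⟩ := Finite.exists_ne_map_eq_of_infinite
    (fun k : ℕ => D.eval ([Ext.z, Ext.yb, Ext.x ()] ++ List.replicate k Ext.y))
  have e : ∀ k, [Ext.z, Ext.yb, Ext.x ()] ++ wd k n ++ [Ext.x (), Ext.y]
      = ([Ext.z, Ext.yb, Ext.x ()] ++ List.replicate k Ext.y) ++
        (Ext.z :: List.replicate n Ext.yb ++ [Ext.x (), Ext.y]) := by
    intro k; simp [wd]
  have h1 := (mem_T n n).2 rfl
  apply hmn
  apply (mem_T m n).1
  rw [← hD, DFA.mem_accepts, e] at h1 ⊢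
  simp only [DFA.eval, DFA.evalFrom, List.foldl_append] at h h1 ⊢
  rw [h]
  exact h1

theorem result : ∃ 𝓛 : Family, AgsmPrincipal 𝓛 ∧ CPrincipal 𝓛 ∧ ¬ ClosedT 𝓛 := by
  refine ⟨Reg, ⟨fun X Y _ _ g M hM => reg_inv g M hM, Unit, ⊤, inferInstance, reg_top, ?_⟩,
    ⟨fun X Y _ _ φ M hM => reg_hom φ M hM, fun X _ M R hR hM => Language.IsRegular.inf hM hR,
      Unit, ⊤, inferInstance, reg_top, ?_⟩, fun h => not_reg (h Unit inferInstance _ reg_one)⟩
  · rintro X hX L ⟨σ, hσ, D, rfl⟩
    have := GenA.inv X Unit hX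
      (⟨σ, inferInstance, D.start, D.accept, D.step, fun _ _ => []⟩ : Agsm X Unit) ⊤
      (GenA.base (L0 := (⊤ : Language Unit)))
    convert this using 1
    ext w
    exact ⟨fun h => ⟨h, trivial⟩, fun h => h.1⟩
  · intro X hX L hL
    have := GenC.inter X _ L hL (GenC.hom X Unit hX (fun _ => []) ⊤
      (GenC.base (L0 := (⊤ : Language Unit))))
    convert this using 1
    ext w
    exact ⟨fun h => ⟨trivial, h⟩, fun h => h.2⟩

end Pool.Agent.Results.MP_c9c291_lc.Reg
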